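import Pool.Agent.P.MP_1206ce_ag.Alg.Sym

/-! Artin basis, divisibility of antiinvariants, Frobenius property, power sums. -/

noncomputable section

open MvPolynomial

namespace Pool.Agent.HK

variable {V Λ Λ₀ : Type} [Fintype V] [DecidableEq V]

/-! ### Divisibility by root forms -/

omit [Fintype V] [DecidableEq V] in
theorem Artin_dvd_sub_rename (k l : V) (f : V → V)
    (hf : ∀ i, (X k - X l : MvPolynomial V ℂ) ∣ X i - X (f i)) (p : MvPolynomial V ℂ) :
    (X k - X l : MvPolynomial V ℂ) ∣ p - rename f p := by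
  induction p using MvPolynomial.induction_on with
  | C a => simp
  | add p q hp hq =>
    have e : p + q - rename f (p + q) = (p - rename f p) + (q - rename f q) := by
      rw [map_add]; ring
    rw [e]
    exact dvd_add hp hq
  | mul_X p i hp =>
    have e : p * X i - rename f (p * X i) =
        (p - rename f p) * X i + rename f p * (X i - X (f i)) := by
      rw [map_mul, rename_X]; ring
    rw [e]
    exact dvd_add (hp.mul_right _) ((hf i).mul_left _)

omit [Fintype V] in
theorem Artin_dvd_iff (k l : V) (p : MvPolynomial V ℂ) :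
    (X k - X l : MvPolynomial V ℂ) ∣ p ↔ rename (fun i => if i = k then l else i) p = 0 := by
  constructor
  · rintro ⟨q, rfl⟩
    rw [map_mul, map_sub, rename_X, rename_X]
    by_cases h : l = k <;> simp [h]
  · intro h
    have := Artin_dvd_sub_rename k l (fun i => if i = k then l else i) (fun i => by
      by_cases hi : i = k
      · simp [hi]
      · simp [hi]) p
    rwa [h, sub_zero] at this

omit [Fintype V] in
theorem Artin_prime {k l : V} (h : k ≠ l) : Prime (X k - X l : MvPolynomial V ℂ) := by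
  refine ⟨sub_ne_zero.2 fun e => h (X_injective e), fun hu => ?_, fun a b hab => ?_⟩
  · have := (Artin_dvd_iff k l 1).1 hu.dvd
    simp at this
  · rw [Artin_dvd_iff, map_mul, mul_eq_zero] at hab
    rwa [Artin_dvd_iff, Artin_dvd_iff]

theorem Artin_swap_mem {lab : V → Λ} {k l : V} (h : lab k = lab l) :
    Equiv.swap k l ∈ Wl lab := by
  rw [mem_Wl]
  intro i
  rw [Equiv.swap_apply_def]
  split_ifs with h1 h2
  · rw [h1, h]
  · rw [h2, h]
  · rfl

theorem Artin_sgn_swap {k l : V} (h : k ≠ l) : sgn (Equiv.swap k l) = -1 := by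
  simp [sgn, Equiv.Perm.sign_swap h]

theorem Artin_sgn_ne (w : Equiv.Perm V) : sgn w ≠ 0 := fun h => by
  have := sgn_mul_self w
  rw [h, zero_mul] at this
  exact zero_ne_one this

open Classical in
/-- The positive roots. -/
def Artin_pairs (lab : V → Λ) : Finset (V × V) :=
  Finset.univ.filter (fun p : V × V => lab p.1 = lab p.2 ∧ ordV p.1 < ordV p.2)

omit [DecidableEq V] in
theorem Artin_mem_pairs {lab : V → Λ} {p : V × V} :
    p ∈ Artin_pairs lab ↔ lab p.1 = lab p.2 ∧ ordV p.1 < ordV p.2 := by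
  simp [Artin_pairs]

omit [DecidableEq V] in
theorem Artin_Dl_eq (lab : V → Λ) : Dl lab = ∏ p ∈ Artin_pairs lab, (X p.1 - X p.2) := rfl

omit [DecidableEq V] in
theorem Artin_ne_of_pairs {lab : V → Λ} {p : V × V} (h : p ∈ Artin_pairs lab) : p.1 ≠ p.2 :=
  fun e => by
    have := (Artin_mem_pairs.1 h).2
    rw [e] at this
    exact lt_irrefl _ this

theorem Artin_Dl_dvd {lab : V → Λ} {y : MvPolynomial V ℂ}
    (hy : ∀ w ∈ Wl lab, rename w y = sgn w • y) : Dl lab ∣ y := by
  rw [Artin_Dl_eq]
  refine Finset.prod_dvd_of_isRelPrime (fun p hp q hq hpq => ?_) fun p hp => ?_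
  · have hp' := Artin_mem_pairs.1 (Finset.mem_coe.1 hp)
    have hq' := Artin_mem_pairs.1 (Finset.mem_coe.1 hq)
    refine ((Artin_prime (Artin_ne_of_pairs hp)).irreducible.isRelPrime_iff_not_dvd).2 fun hd => ?_
    rw [Artin_dvd_iff, map_sub, rename_X, rename_X, sub_eq_zero] at hd
    have hd' := X_injective hd
    split_ifs at hd' with h1 h2 h2
    · exact Artin_ne_of_pairs hq (h1.trans h2.symm)
    · exact hpq (Prod.ext h1.symm hd')
    · have a := hp'.2
      have b := hq'.2
      rw [hd', h2] at b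
      exact lt_asymm a b
    · exact Artin_ne_of_pairs hq hd'
  · have hne := Artin_ne_of_pairs hp
    have h1 := hy _ (Artin_swap_mem (Artin_mem_pairs.1 hp).1)
    have h2 := Artin_dvd_sub_rename p.1 p.2 (Equiv.swap p.1 p.2) (fun i => by
      rw [Equiv.swap_apply_def]
      split_ifs with a b
      · rw [a]
      · rw [b]
        exact ⟨-1, by ring⟩
      · simp) y
    rw [h1, Artin_sgn_swap hne] at h2
    have e : y = C (1 / 2 : ℂ) * (y - (-1 : ℂ) • y) := by
      rw [← smul_eq_C_mul, smul_sub, smul_smul, ← sub_smul,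
        show (1 / 2 - 1 / 2 * -1 : ℂ) = 1 by norm_num, one_smul]
    rw [e]
    exact h2.mul_left _

/-- Antiinvariants are multiples of the Vandermonde product. -/
theorem anti_iff {lab : V → Λ} {y : MvPolynomial V ℂ} :
    (∀ w ∈ Wl lab, rename w y = sgn w • y) ↔ ∃ h ∈ Rinv lab, y = Dl lab * h := by
  constructor
  · intro hy
    obtain ⟨h, rfl⟩ := Artin_Dl_dvd hy
    refine ⟨h, fun w hw => ?_, rfl⟩
    have e := hy w hw
    rw [map_mul, rename_Dl hw, smul_mul_assoc] at e
    exact mul_left_cancel₀ (Dl_ne_zero lab) (smul_right_injective _ (Artin_sgn_ne w) e)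
  · rintro ⟨h, hh, rfl⟩ w hw
    rw [map_mul, rename_Dl hw, hh w hw, smul_mul_assoc]

theorem exists_Alt_eq (lab : V → Λ) (p : MvPolynomial V ℂ) :
    ∃ h ∈ Rinv lab, Alt lab p = Dl lab * h :=
  anti_iff.1 fun _ hw => rename_Alt hw p

theorem Artin_Alt_eq_zero {lab : V → Λ} {p : MvPolynomial V ℂ} {d : ℕ} (hp : p.IsHomogeneous d)
    (hd : d < npos lab) : Alt lab p = 0 := by
  by_contra hne
  obtain ⟨h, -, e⟩ := exists_Alt_eq lab p
  have h0 : h ≠ 0 := fun h0 => hne (by rw [e, h0, mul_zero])
  have h1 := (Alt_isHomogeneous lab hp).totalDegree hne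
  rw [e, totalDegree_mul_of_isDomain (Dl_ne_zero lab) h0,
    (Dl_isHomogeneous lab).totalDegree (Dl_ne_zero lab)] at h1
  omega

theorem Alt_xI_ne {lab : V → Λ} {I : ArtI lab} (h : I ≠ topI lab) : Alt lab (xI lab I) = 0 :=
  Artin_Alt_eq_zero (xI_isHomogeneous lab I) (degI_lt h)

/-! ### The reproducing kernel -/

/-- The twisted antisymmetrisation. -/
def Artin_F (lab : V → Λ) (s : Finset (V × V)) (a : MvPolynomial V ℂ) : MvPolynomial V ℂ :=
  ∑ w ∈ Wl lab, sgn w • ((∏ p ∈ s, (X p.1 - X (w p.2))) * rename w a)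

theorem Artin_F_empty (lab : V → Λ) (a : MvPolynomial V ℂ) : Artin_F lab ∅ a = Alt lab a := by
  simp [Artin_F, Alt_apply]

theorem Artin_F_insert (lab : V → Λ) {s : Finset (V × V)} {p : V × V} (hp : p ∉ s)
    (a : MvPolynomial V ℂ) :
    Artin_F lab (insert p s) a = X p.1 * Artin_F lab s a - Artin_F lab s (a * X p.2) := by
  simp only [Artin_F, Finset.mul_sum, ← Finset.sum_sub_distrib]
  refine Finset.sum_congr rfl fun w _ => ?_
  rw [Finset.prod_insert hp, map_mul, rename_X, mul_smul_comm, ← smul_sub]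
  congr 1
  ring

theorem Artin_exists_lt {w : Equiv.Perm V} (hw : w ≠ 1) : ∃ l, ordV (w l) < ordV l := by
  by_contra hc
  simp only [not_exists, not_lt] at hc
  have h1 : ∑ l, ordV l = ∑ l, ordV (w l) := (Equiv.sum_comp w ordV).symm
  have h2 := (Finset.sum_eq_sum_iff_of_le fun l _ => hc l).1 h1
  exact hw (Equiv.ext fun l => (ordV_injective (h2 l (Finset.mem_univ l))).symm)

theorem Artin_F_pairs (lab : V → Λ) (a : MvPolynomial V ℂ) :
    Artin_F lab (Artin_pairs lab) a = Dl lab * a := by
  rw [Artin_F, Finset.sum_eq_single_of_mem 1 (one_mem_Wl lab)]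
  · simp [sgn_one, Artin_Dl_eq]
  · intro w hw hw1
    obtain ⟨l, hl⟩ := Artin_exists_lt hw1
    rw [Finset.prod_eq_zero (i := (w l, l)) (Artin_mem_pairs.2 ⟨mem_Wl.1 hw l, hl⟩) (sub_self _),
      zero_mul, smul_zero]

theorem Artin_F_top (lab : V → Λ) (s : Finset (V × V)) :
    ∀ (a : MvPolynomial V ℂ) (d : ℕ), a.IsHomogeneous d → d + s.card ≤ npos lab →
      Artin_F lab s a = (-1 : ℂ) ^ s.card • Alt lab (a * ∏ p ∈ s, X p.2) := by
  induction s using Finset.induction_on with
  | empty => intro a d _ _; simp [Artin_F_empty]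
  | insert p s hp ih =>
    intro a d ha hd
    rw [Finset.card_insert_of_notMem hp] at hd ⊢
    have h1 : (a * ∏ p ∈ s, X p.2).IsHomogeneous (d + s.card) := by
      have := IsHomogeneous.prod s (fun p : V × V => (X p.2 : MvPolynomial V ℂ)) (fun _ => 1)
        fun p _ => isHomogeneous_X ℂ p.2
      rw [Finset.sum_const, smul_eq_mul, mul_one] at this
      exact ha.mul this
    rw [Artin_F_insert lab hp, ih a d ha (by omega), Artin_Alt_eq_zero h1 (by omega),
      ih _ (d + 1) (ha.mul (isHomogeneous_X ℂ p.2)) (by omega), Finset.prod_insert hp, pow_succ,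
      mul_assoc a]
    simp

theorem Artin_fiber (lab : V → Λ) (l : V) :
    ((Artin_pairs lab).filter fun p => p.2 = l).card = posl lab l := by
  rw [posl]
  refine Finset.card_bij (fun p _ => p.1) (fun p hp => ?_) (fun p hp q hq e => ?_) fun k hk => ?_
  · obtain ⟨h1, h2⟩ := Finset.mem_filter.1 hp
    have h3 := Artin_mem_pairs.1 h1
    rw [h2] at h3
    simpa using h3
  · exact Prod.ext e ((Finset.mem_filter.1 hp).2.trans (Finset.mem_filter.1 hq).2.symm)
  · exact ⟨(k, l), Finset.mem_filter.2 ⟨Artin_mem_pairs.2 (by simpa using hk), rfl⟩, rfl⟩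

theorem Artin_card_pairs (lab : V → Λ) : (Artin_pairs lab).card = npos lab := by
  rw [Finset.card_eq_sum_card_fiberwise (f := fun p : V × V => p.2) (t := Finset.univ)
    fun _ _ => Finset.mem_univ _, npos]
  exact Finset.sum_congr rfl fun l _ => Artin_fiber lab l

theorem Artin_prod_pairs (lab : V → Λ) :
    ∏ p ∈ Artin_pairs lab, (X p.2 : MvPolynomial V ℂ) = xI lab (topI lab) := by
  rw [← Finset.prod_fiberwise (Artin_pairs lab) fun p : V × V => p.2, xI]
  refine Finset.prod_congr rfl fun l _ => ?_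
  rw [Finset.prod_congr rfl (g := fun _ => (X l : MvPolynomial V ℂ))
    fun p hp => by rw [(Finset.mem_filter.1 hp).2], Finset.prod_const, Artin_fiber]
  rfl

theorem Alt_xI_top (lab : V → Λ) :
    ∃ ε : ℂ, (ε = 1 ∨ ε = -1) ∧ Alt lab (xI lab (topI lab)) = ε • Dl lab := by
  have h := Artin_F_top lab (Artin_pairs lab) 1 0 (isHomogeneous_one V ℂ)
    (by rw [Artin_card_pairs, zero_add])
  rw [Artin_F_pairs, mul_one, one_mul, Artin_prod_pairs] at h
  refine ⟨(-1) ^ (Artin_pairs lab).card, neg_one_pow_eq_or ℂ _, ?_⟩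
  rw [h, smul_smul, ← mul_pow]
  simp

/-! ### Elementary symmetric functions of a finite set of variables -/

/-- The elementary symmetric function of the variables in `s`. -/
def Artin_E {σ : Type} (s : Finset σ) (a : ℕ) : MvPolynomial σ ℂ :=
  ∑ t ∈ Finset.powersetCard a s, ∏ k ∈ t, X k

theorem Artin_E_zero {σ : Type} (s : Finset σ) : Artin_E s 0 = 1 := by simp [Artin_E]

theorem Artin_E_big {σ : Type} {s : Finset σ} {a : ℕ} (h : s.card < a) : Artin_E s a = 0 := by
  rw [Artin_E, Finset.powersetCard_eq_empty.2 h, Finset.sum_empty]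

theorem Artin_E_insert {σ : Type} [DecidableEq σ] {s : Finset σ} {k : σ} (hk : k ∉ s) (a : ℕ) :
    Artin_E (insert k s) (a + 1) = Artin_E s (a + 1) + X k * Artin_E s a := by
  have hn : ∀ {b : ℕ} {t : Finset σ}, t ∈ Finset.powersetCard b s → k ∉ t := fun ht hkt =>
    hk ((Finset.mem_powersetCard.1 ht).1 hkt)
  rw [Artin_E, Finset.powersetCard_succ_insert hk, Finset.sum_union, Finset.sum_image, Artin_E,
    Artin_E, Finset.mul_sum]
  · congr 1
    exact Finset.sum_congr rfl fun t ht => Finset.prod_insert (hn ht)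
  · intro t ht u hu e
    rw [← Finset.erase_insert (hn ht), e, Finset.erase_insert (hn hu)]
  · rw [Finset.disjoint_left]
    intro t ht hu
    obtain ⟨u, -, rfl⟩ := Finset.mem_image.1 hu
    exact hn ht (Finset.mem_insert_self k u)

theorem Artin_E_map {σ τ : Type} (f : σ ↪ τ) (s : Finset σ) (a : ℕ) :
    rename f (Artin_E s a) = Artin_E (s.map f) a := by
  rw [Artin_E, Artin_E, Finset.powersetCard_map, Finset.sum_map, map_sum]
  refine Finset.sum_congr rfl fun t _ => ?_
  rw [map_prod]
  simp

open Classical in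
/-- The variables of a block below a threshold. -/
def Artin_B (lab : V → Λ) (j : Λ) (m : ℕ) : Finset V :=
  Finset.univ.filter fun l => lab l = j ∧ ordV l < m

omit [DecidableEq V] in
theorem Artin_mem_B {lab : V → Λ} {j : Λ} {m : ℕ} {l : V} :
    l ∈ Artin_B lab j m ↔ lab l = j ∧ ordV l < m := by
  simp [Artin_B]

omit [DecidableEq V] in
theorem Artin_card_B (lab : V → Λ) (k : V) : (Artin_B lab (lab k) (ordV k)).card = posl lab k :=
  rfl

omit [DecidableEq V] in
theorem Artin_notMem_B (lab : V → Λ) (j : Λ) (k : V) : k ∉ Artin_B lab j (ordV k) :=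
  fun h => lt_irrefl _ (Artin_mem_B.1 h).2

theorem Artin_B_succ (lab : V → Λ) (k : V) :
    Artin_B lab (lab k) (ordV k + 1) = insert k (Artin_B lab (lab k) (ordV k)) := by
  ext l
  rw [Finset.mem_insert, Artin_mem_B, Artin_mem_B]
  constructor
  · rintro ⟨h1, h2⟩
    rcases Nat.lt_succ_iff_lt_or_eq.1 h2 with h | h
    · exact Or.inr ⟨h1, h⟩
    · exact Or.inl (ordV_injective h)
  · rintro (rfl | ⟨h1, h2⟩)
    · exact ⟨rfl, Nat.lt_succ_self _⟩
    · exact ⟨h1, Nat.lt_succ_of_lt h2⟩

theorem Artin_B_succ_ne {lab : V → Λ} {j : Λ} {k : V} (h : lab k ≠ j) :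
    Artin_B lab j (ordV k + 1) = Artin_B lab j (ordV k) := by
  ext l
  rw [Artin_mem_B, Artin_mem_B]
  refine and_congr_right fun h1 => ⟨fun h2 => ?_, Nat.lt_succ_of_lt⟩
  rcases Nat.lt_succ_iff_lt_or_eq.1 h2 with h3 | h3
  · exact h3
  · rw [ordV_injective h3] at h1
    exact absurd h1 h

omit [DecidableEq V] in
theorem Artin_ordV_lt (k : V) : ordV k < Fintype.card V := (Fintype.equivFin V k).2

omit [DecidableEq V] in
theorem Artin_exists_ordV {m : ℕ} (h : m < Fintype.card V) : ∃ k : V, ordV k = m :=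
  ⟨(Fintype.equivFin V).symm ⟨m, h⟩, by simp [ordV]⟩

/-! ### The tower -/

/-- The algebras of the tower. -/
def Artin_A (lab : V → Λ) (m : ℕ) : Subalgebra ℂ (MvPolynomial V ℂ) :=
  Algebra.adjoin ℂ ({p | ∃ j a, p = Artin_E (Artin_B lab j m) a} ∪ {p | ∃ k, m ≤ ordV k ∧ p = X k})

omit [DecidableEq V] in
theorem Artin_E_mem_A (lab : V → Λ) (m : ℕ) (j : Λ) (a : ℕ) :
    Artin_E (Artin_B lab j m) a ∈ Artin_A lab m :=
  Algebra.subset_adjoin (Or.inl ⟨j, a, rfl⟩)

omit [DecidableEq V] in
theorem Artin_mem_A_zero (lab : V → Λ) (p : MvPolynomial V ℂ) : p ∈ Artin_A lab 0 := by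
  induction p using MvPolynomial.induction_on with
  | C a => exact (Artin_A lab 0).algebraMap_mem a
  | add p q hp hq => exact add_mem hp hq
  | mul_X p i hp => exact mul_mem hp (Algebra.subset_adjoin (Or.inr ⟨i, Nat.zero_le _, rfl⟩))

/-- Combinations of the powers `x ^ e`, `e < n`, with coefficients in `A`. -/
def Artin_S (A : Subalgebra ℂ (MvPolynomial V ℂ)) (x : MvPolynomial V ℂ) (n : ℕ) :
    Submodule ℂ (MvPolynomial V ℂ) :=
  Submodule.span ℂ {p | ∃ a ∈ A, ∃ e < n, p = a * x ^ e}

omit [Fintype V] [DecidableEq V] in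
theorem Artin_mul_mem_span {T : Set (MvPolynomial V ℂ)} {N : Submodule ℂ (MvPolynomial V ℂ)}
    {q : MvPolynomial V ℂ} (h : ∀ t ∈ T, q * t ∈ N) {p : MvPolynomial V ℂ}
    (hp : p ∈ Submodule.span ℂ T) : q * p ∈ N := by
  induction hp using Submodule.span_induction with
  | mem t ht => exact h t ht
  | zero => rw [mul_zero]; exact N.zero_mem
  | add a b _ _ ha hb => rw [mul_add]; exact N.add_mem ha hb
  | smul c a _ ha => rw [mul_smul_comm]; exact N.smul_mem c ha

omit [Fintype V] [DecidableEq V] in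
theorem Artin_S_mul {A : Subalgebra ℂ (MvPolynomial V ℂ)} {x : MvPolynomial V ℂ} {n : ℕ}
    {b p : MvPolynomial V ℂ} (hb : b ∈ A) (hp : p ∈ Artin_S A x n) : b * p ∈ Artin_S A x n := by
  refine Artin_mul_mem_span ?_ hp
  rintro _ ⟨a, ha, e, he, rfl⟩
  exact Submodule.subset_span ⟨b * a, mul_mem hb ha, e, he, (mul_assoc _ _ _).symm⟩

omit [Fintype V] [DecidableEq V] in
theorem Artin_S_succ {A : Subalgebra ℂ (MvPolynomial V ℂ)} {x : MvPolynomial V ℂ} {n : ℕ}
    {p : MvPolynomial V ℂ} (hp : p ∈ Artin_S A x n) : x * p ∈ Artin_S A x (n + 1) := by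
  refine Artin_mul_mem_span ?_ hp
  rintro _ ⟨a, ha, e, he, rfl⟩
  exact Submodule.subset_span ⟨a, ha, e + 1, Nat.succ_lt_succ he, by ring⟩

theorem Artin_step (lab : V → Λ) (k : V) {p : MvPolynomial V ℂ} (hp : p ∈ Artin_A lab (ordV k)) :
    p ∈ Artin_S (Artin_A lab (ordV k + 1)) (X k) (posl lab k + 1) := by
  set A := Artin_A lab (ordV k + 1) with hA
  set B' := Artin_B lab (lab k) (ordV k) with hB'
  have hrec : ∀ a, Artin_E B' (a + 1) =
      Artin_E (Artin_B lab (lab k) (ordV k + 1)) (a + 1) - X k * Artin_E B' a := fun a => by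
    rw [Artin_B_succ, Artin_E_insert (Artin_notMem_B lab _ k)]
    ring
  have h1 : ∀ a, Artin_E B' a - (-X k) ^ a ∈ Artin_S A (X k) a := by
    intro a
    induction a with
    | zero => simp [Artin_E_zero]
    | succ a ih =>
      have e : Artin_E B' (a + 1) - (-X k) ^ (a + 1) =
          Artin_E (Artin_B lab (lab k) (ordV k + 1)) (a + 1) * X k ^ 0 -
            X k * (Artin_E B' a - (-X k) ^ a) := by
        rw [hrec]; ring
      rw [e]
      exact sub_mem (Submodule.subset_span ⟨_, Artin_E_mem_A lab _ _ _, 0, Nat.succ_pos a, rfl⟩)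
        (Artin_S_succ ih)
  have h2 : (X k : MvPolynomial V ℂ) ^ (posl lab k + 1) ∈ Artin_S A (X k) (posl lab k + 1) := by
    have h3 := h1 (posl lab k + 1)
    rw [Artin_E_big (by rw [hB', Artin_card_B]; exact Nat.lt_succ_self _), zero_sub,
      neg_mem_iff] at h3
    rcases Nat.even_or_odd (posl lab k + 1) with h | h
    · rwa [h.neg_pow] at h3
    · rwa [h.neg_pow, neg_mem_iff] at h3
  have hx : ∀ s ∈ Artin_S A (X k) (posl lab k + 1),
      X k * s ∈ Artin_S A (X k) (posl lab k + 1) := by
    intro s hs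
    refine Artin_mul_mem_span ?_ hs
    rintro _ ⟨a, ha, e, he, rfl⟩
    rcases Nat.lt_succ_iff_lt_or_eq.1 he with h | h
    · exact Submodule.subset_span ⟨a, ha, e + 1, Nat.succ_lt_succ h, by ring⟩
    · rw [h, mul_left_comm, ← pow_succ']
      exact Artin_S_mul ha h2
  have hE : ∀ a, ∀ s ∈ Artin_S A (X k) (posl lab k + 1),
      Artin_E B' a * s ∈ Artin_S A (X k) (posl lab k + 1) := by
    intro a
    induction a with
    | zero => intro s hs; rwa [Artin_E_zero, one_mul]
    | succ a ih =>
      intro s hs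
      rw [hrec, sub_mul, mul_assoc]
      exact sub_mem (Artin_S_mul (Artin_E_mem_A lab _ _ _) hs) (hx _ (ih s hs))
  have key : ∀ s ∈ Artin_S A (X k) (posl lab k + 1), p * s ∈ Artin_S A (X k) (posl lab k + 1) := by
    induction hp using Algebra.adjoin_induction with
    | mem q hq =>
      rcases hq with ⟨j, a, rfl⟩ | ⟨l, hl, rfl⟩
      · by_cases hj : lab k = j
        · rw [← hj]
          exact hE a
        · rw [← Artin_B_succ_ne hj]
          exact fun s hs => Artin_S_mul (Artin_E_mem_A lab _ _ _) hs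
      · rcases hl.lt_or_eq with h | h
        · exact fun s hs => Artin_S_mul (Algebra.subset_adjoin (Or.inr ⟨l, h, rfl⟩)) hs
        · rw [← ordV_injective h]
          exact hx
    | algebraMap r => exact fun s hs => Artin_S_mul (A.algebraMap_mem r) hs
    | add a b _ _ ha hb => exact fun s hs => by rw [add_mul]; exact add_mem (ha s hs) (hb s hs)
    | mul a b _ _ ha hb => exact fun s hs => by rw [mul_assoc]; exact ha _ (hb s hs)
  have h4 := key 1 (Submodule.subset_span ⟨1, one_mem A, 0, Nat.succ_pos _, by simp⟩)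
  rwa [mul_one] at h4

/-- The part of an Artin monomial above a threshold. -/
def Artin_x (lab : V → Λ) (m : ℕ) (I : ArtI lab) : MvPolynomial V ℂ :=
  ∏ l ∈ Finset.univ.filter (fun l : V => m ≤ ordV l), X l ^ (I l : ℕ)

omit [DecidableEq V] in
theorem Artin_x_zero (lab : V → Λ) (I : ArtI lab) : Artin_x lab 0 I = xI lab I := by
  simp [Artin_x, xI]

omit [DecidableEq V] in
theorem Artin_x_top (lab : V → Λ) (I : ArtI lab) : Artin_x lab (Fintype.card V) I = 1 := by
  rw [Artin_x, Finset.filter_false_of_mem fun l _ => not_le.2 (Artin_ordV_lt l),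
    Finset.prod_empty]

theorem Artin_x_succ (lab : V → Λ) (k : V) (I : ArtI lab) :
    Artin_x lab (ordV k) I = X k ^ (I k : ℕ) * Artin_x lab (ordV k + 1) I := by
  have e : Finset.univ.filter (fun l : V => ordV k ≤ ordV l) =
      insert k (Finset.univ.filter fun l : V => ordV k + 1 ≤ ordV l) := by
    ext l
    simp only [Finset.mem_filter, Finset.mem_univ, true_and, Finset.mem_insert]
    constructor
    · intro h
      rcases h.lt_or_eq with h | h
      · exact Or.inr h
      · exact Or.inl (ordV_injective h).symm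
    · rintro (rfl | h)
      · exact le_rfl
      · omega
  rw [Artin_x, e, Finset.prod_insert (by simp), Artin_x]

theorem Artin_span_aux (lab : V → Λ) (m : ℕ) (hm : m ≤ Fintype.card V) :
    ∀ p ∈ Artin_A lab m, p ∈ Submodule.span ℂ
      {q | ∃ a ∈ Artin_A lab (Fintype.card V), ∃ I : ArtI lab, q = a * Artin_x lab m I} := by
  induction hm using Nat.decreasingInduction with
  | self =>
    exact fun p hp => Submodule.subset_span ⟨p, hp, topI lab, by rw [Artin_x_top, mul_one]⟩
  | of_succ m hm ih =>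
    obtain ⟨k, rfl⟩ := Artin_exists_ordV hm
    intro p hp
    refine Submodule.span_le.2 ?_ (Artin_step lab k hp)
    rintro _ ⟨a, ha, e, he, rfl⟩
    rw [SetLike.mem_coe, mul_comm]
    refine Artin_mul_mem_span ?_ (ih a ha)
    rintro _ ⟨b, hb, I, rfl⟩
    refine Submodule.subset_span ⟨b, hb, Function.update I k ⟨e, he⟩, ?_⟩
    rw [Artin_x_succ, Function.update_self, mul_left_comm]
    congr 2
    refine Finset.prod_congr rfl fun l hl => ?_
    rw [Function.update_of_ne]
    rintro rfl
    simp at hl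

theorem Artin_span_A (lab : V → Λ) (p : MvPolynomial V ℂ) :
    ∃ c : ArtI lab → MvPolynomial V ℂ, (∀ I, c I ∈ Artin_A lab (Fintype.card V)) ∧
      p = ∑ I, c I * xI lab I := by
  have h := Artin_span_aux lab 0 (Nat.zero_le _) p (Artin_mem_A_zero lab p)
  induction h using Submodule.span_induction with
  | mem q hq =>
    obtain ⟨a, ha, I, rfl⟩ := hq
    refine ⟨fun J => if J = I then a else 0, fun J => ?_, ?_⟩
    · show (if J = I then a else 0) ∈ _
      split_ifs
      · exact ha
      · exact zero_mem _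
    · simp [Artin_x_zero]
  | zero => exact ⟨0, fun _ => zero_mem _, by simp⟩
  | add a b _ _ ha hb =>
    obtain ⟨c, hc, rfl⟩ := ha
    obtain ⟨d, hd, rfl⟩ := hb
    exact ⟨c + d, fun I => add_mem (hc I) (hd I), by
      simp [add_mul, Finset.sum_add_distrib]⟩
  | smul r a _ ha =>
    obtain ⟨c, hc, rfl⟩ := ha
    exact ⟨r • c, fun I => Subalgebra.smul_mem _ (hc I) r, by simp [Finset.smul_sum]⟩

theorem Artin_A_le (lab : V → Λ) : Artin_A lab (Fintype.card V) ≤ Rinv lab := by
  refine Algebra.adjoin_le ?_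
  rintro _ (⟨j, a, rfl⟩ | ⟨k, hk, rfl⟩)
  · intro w hw
    have e : (Artin_B lab j (Fintype.card V)).map w.toEmbedding =
        Artin_B lab j (Fintype.card V) := by
      ext l
      rw [Finset.mem_map_equiv, Artin_mem_B, Artin_mem_B]
      have h1 := mem_Wl.1 hw (w.symm l)
      rw [Equiv.apply_symm_apply] at h1
      simp [h1, Artin_ordV_lt]
    have h := Artin_E_map w.toEmbedding (Artin_B lab j (Fintype.card V)) a
    rwa [e] at h
  · exact absurd hk (not_le.2 (Artin_ordV_lt k))

theorem artin_span (lab : V → Λ) (p : MvPolynomial V ℂ) :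
    ∃ c : ArtI lab → MvPolynomial V ℂ, (∀ I, c I ∈ Rinv lab) ∧ p = ∑ I, c I * xI lab I := by
  obtain ⟨c, hc, h⟩ := Artin_span_A lab p
  exact ⟨c, fun I => Artin_A_le lab (hc I), h⟩

theorem Artin_indep_aux {lab : V → Λ} {c : ArtI lab → MvPolynomial V ℂ}
    (hc : ∀ I, c I ∈ Rinv lab) (h : ∑ I, c I * xI lab I = 0) (J : ArtI lab) (m : ℕ)
    (hm : m ≤ Fintype.card V) :
    ∑ I ∈ Finset.univ.filter (fun I : ArtI lab => ∀ l, ordV l < m → I l = J l),
      c I * Artin_x lab m I = 0 := by
  induction m with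
  | zero => simpa [Artin_x_zero] using h
  | succ m ih =>
    obtain ⟨k, rfl⟩ := Artin_exists_ordV (V := V) (m := m) hm
    have ih' := ih (by omega)
    set s := Finset.univ.filter (fun I : ArtI lab => ∀ l, ordV l < ordV k → I l = J l) with hs
    set F : Polynomial (MvPolynomial V ℂ) :=
      ∑ I ∈ s, Polynomial.monomial (I k : ℕ) (c I * Artin_x lab (ordV k + 1) I) with hF
    have hF0 : F = 0 := by
      refine Polynomial.eq_zero_of_degree_lt_of_eval_index_eq_zero
        (Artin_B lab (lab k) (ordV k + 1)) (v := fun l => X l) (X_injective.injOn) ?_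
        fun l hl => ?_
      · rw [Artin_B_succ, Finset.card_insert_of_notMem (Artin_notMem_B lab _ k), Artin_card_B]
        refine (Polynomial.degree_sum_le _ _).trans_lt ?_
        rw [Finset.sup_lt_iff (WithBot.bot_lt_coe _)]
        intro I _
        exact (Polynomial.degree_monomial_le _ _).trans_lt (by exact_mod_cast (I k).2)
      · obtain ⟨hl1, hl2⟩ := Artin_mem_B.1 hl
        have hw := Artin_swap_mem (lab := lab) hl1.symm
        have e := congrArg (rename (Equiv.swap k l)) ih'
        rw [map_sum, map_zero] at e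
        rw [hF, Polynomial.eval_finsetSum, ← e]
        refine Finset.sum_congr rfl fun I _ => ?_
        have e2 : rename (Equiv.swap k l) (Artin_x lab (ordV k + 1) I) =
            Artin_x lab (ordV k + 1) I := by
          rw [Artin_x, map_prod]
          refine Finset.prod_congr rfl fun i hi => ?_
          have hi' : ordV k + 1 ≤ ordV i := (Finset.mem_filter.1 hi).2
          rw [map_pow, rename_X, Equiv.swap_apply_of_ne_of_ne]
          · rintro rfl
            omega
          · rintro rfl
            omega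
        rw [Polynomial.eval_monomial, Artin_x_succ, map_mul, map_mul, map_pow, rename_X,
          Equiv.swap_apply_left, hc I _ hw, e2]
        ring
    have h1 := congrArg (fun G => Polynomial.coeff G (J k : ℕ)) hF0
    simp only [hF, Polynomial.finsetSum_coeff, Polynomial.coeff_monomial,
      Polynomial.coeff_zero] at h1
    rw [← Finset.sum_filter, hs, Finset.filter_filter] at h1
    rw [← h1]
    refine Finset.sum_congr (Finset.filter_congr fun I _ => ?_) fun _ _ => rfl
    constructor
    · intro h2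
      exact ⟨fun l hl => h2 l (Nat.lt_succ_of_lt hl), by rw [h2 k (Nat.lt_succ_self _)]⟩
    · rintro ⟨h2, h3⟩ l hl
      rcases Nat.lt_succ_iff_lt_or_eq.1 hl with h4 | h4
      · exact h2 l h4
      · rw [ordV_injective h4]
        exact Fin.ext h3

theorem artin_indep {lab : V → Λ} {c : ArtI lab → MvPolynomial V ℂ} (hc : ∀ I, c I ∈ Rinv lab)
    (h : ∑ I, c I * xI lab I = 0) : c = 0 := by
  funext J
  have h1 := Artin_indep_aux hc h J (Fintype.card V) le_rfl
  rw [Finset.sum_eq_single_of_mem J (by simp), Artin_x_top, mul_one] at h1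
  · exact h1
  · intro I hI hIJ
    exact absurd (funext fun l => (Finset.mem_filter.1 hI).2 l (Artin_ordV_lt l)) hIJ

omit [Fintype V] [DecidableEq V] in
theorem Artin_hc_mul (c : MvPolynomial V ℂ) {q : MvPolynomial V ℂ} {e : ℕ}
    (hq : q.IsHomogeneous e) (d : ℕ) :
    homogeneousComponent d (c * q) =
      (if d < e then 0 else homogeneousComponent (d - e) c) * q := by
  induction c using MvPolynomial.induction_on' with
  | monomial u a =>
    have h1 : (monomial u a : MvPolynomial V ℂ).IsHomogeneous u.degree :=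
      isHomogeneous_monomial a rfl
    rw [homogeneousComponent_of_mem (h1.mul hq), homogeneousComponent_of_mem h1]
    split_ifs with h2 h3 h3 h3 h4
    all_goals first | omega | simp
  | add a b ha hb =>
    rw [add_mul, map_add, ha, hb]
    split_ifs
    · simp
    · rw [map_add, add_mul]

theorem artin_span_hom (lab : V → Λ) {p : MvPolynomial V ℂ} {d : ℕ} (hp : p.IsHomogeneous d) :
    ∃ c : ArtI lab → MvPolynomial V ℂ, (∀ I, c I ∈ Rinv lab ∧
      (c I).IsHomogeneous (d - degI lab I) ∧ (d < degI lab I → c I = 0)) ∧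
      p = ∑ I, c I * xI lab I := by
  obtain ⟨c, hc, h⟩ := artin_span lab p
  refine ⟨fun I => if d < degI lab I then 0 else homogeneousComponent (d - degI lab I) (c I),
    fun I => ?_, ?_⟩
  · by_cases hI : d < degI lab I
    · simp only [if_pos hI]
      exact ⟨zero_mem _, isHomogeneous_zero _ _ _, fun _ => trivial⟩
    · simp only [if_neg hI]
      exact ⟨homogeneousComponent_mem_Rinv (hc I) _, homogeneousComponent_isHomogeneous _ _,
        fun h => absurd h hI⟩
  · have h1 := congrArg (homogeneousComponent d) h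
    rw [homogeneousComponent_eq_self hp, map_sum] at h1
    rw [h1]
    exact Finset.sum_congr rfl fun I _ => Artin_hc_mul _ (xI_isHomogeneous lab I) d

theorem Artin_F_dvd (lab : V → Λ) (e : MvPolynomial V ℂ) (s : Finset (V × V)) :
    ∀ a : MvPolynomial V ℂ, (∀ p, e ∣ Alt lab (a * p)) → e ∣ Artin_F lab s a := by
  induction s using Finset.induction_on with
  | empty =>
    intro a h
    rw [Artin_F_empty]
    simpa using h 1
  | insert p s hp ih =>
    intro a h
    rw [Artin_F_insert lab hp]
    exact dvd_sub ((ih a h).mul_left _) (ih _ fun q => by rw [mul_assoc]; exact h _)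

/-- The pairing `(p, q) ↦ Alt (p q) / D` is perfect over the invariants. -/
theorem frobenius {lab : V → Λ} {a b : MvPolynomial V ℂ} (hb : b ∈ Rinv lab)
    (h : ∀ p, b * Dl lab ∣ Alt lab (a * p)) : b ∣ a := by
  have h1 := Artin_F_dvd lab _ (Artin_pairs lab) a h
  rw [Artin_F_pairs, mul_comm (Dl lab)] at h1
  exact (mul_dvd_mul_iff_right (Dl_ne_zero lab)).1 h1

theorem Artin_Rinv_eq (lab : V → Λ) : Rinv lab = Artin_A lab (Fintype.card V) := by
  refine le_antisymm (fun p hp => ?_) (Artin_A_le lab)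
  obtain ⟨c, hc, h⟩ := Artin_span_A lab p
  have h0 : xI lab (fun _ => 0) = 1 := by simp [xI]
  have h1 := artin_indep (lab := lab) (c := fun I => c I - if I = (fun _ => 0) then p else 0)
    (fun I => sub_mem (Artin_A_le lab (hc I)) (by
      split_ifs
      · exact hp
      · exact zero_mem _))
    (by simp [sub_mul, Finset.sum_sub_distrib, ← h, h0])
  have h2 := congrFun h1 fun _ => 0
  simp only [if_true, Pi.zero_apply, sub_eq_zero] at h2
  rw [← h2]
  exact hc _

open Classical in
omit [DecidableEq V] in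
theorem Artin_B_top (lab : V → Λ) (j : Λ) :
    Artin_B lab j (Fintype.card V) = Finset.univ.filter fun k => lab k = j := by
  ext l
  simp [Artin_mem_B, Artin_ordV_lt]

theorem Artin_E_mem_psl (lab : V → Λ) (j : Λ) (a : ℕ) :
    Artin_E (Artin_B lab j (Fintype.card V)) a ∈
      Algebra.adjoin ℂ {p | ∃ j a, p = psl lab j a} := by
  classical
  have hB : (Finset.univ : Finset {k // lab k = j}).map (Function.Embedding.subtype _) =
      Artin_B lab j (Fintype.card V) := by
    ext l
    simp [Artin_mem_B, Artin_ordV_lt]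
  have hE : ∀ b, rename (Function.Embedding.subtype fun k => lab k = j)
      (esymm {k // lab k = j} ℂ b) = Artin_E (Artin_B lab j (Fintype.card V)) b := fun b => by
    rw [← hB, ← Artin_E_map]
    rfl
  have hP : ∀ b, rename (Function.Embedding.subtype fun k => lab k = j)
      (psum {k // lab k = j} ℂ b) = psl lab j b := fun b => by
    rw [psl, ← Artin_B_top, ← hB, Finset.sum_map, psum, map_sum]
    simp
  induction a using Nat.strong_induction_on with
  | _ a ih =>
    rcases Nat.eq_zero_or_pos a with rfl | ha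
    · rw [Artin_E_zero]
      exact one_mem _
    · have h1 := congrArg (rename (Function.Embedding.subtype fun k => lab k = j))
        (mul_esymm_eq_sum {k // lab k = j} ℂ a)
      simp only [map_mul, map_natCast, map_pow, map_neg, map_one, map_sum, hE, hP] at h1
      have h2 : Artin_E (Artin_B lab j (Fintype.card V)) a =
          (a : ℂ)⁻¹ • ((a : MvPolynomial V ℂ) * Artin_E (Artin_B lab j (Fintype.card V)) a) := by
        rw [← nsmul_eq_mul, ← Nat.cast_smul_eq_nsmul ℂ, smul_smul,
          inv_mul_cancel₀ (Nat.cast_ne_zero.2 ha.ne'), one_smul]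
      rw [h2, h1]
      refine Subalgebra.smul_mem _ (mul_mem (pow_mem (neg_mem (one_mem _)) _)
        (sum_mem fun b hb => mul_mem (mul_mem (pow_mem (neg_mem (one_mem _)) _) ?_) ?_)) _
      · exact ih _ (Finset.mem_filter.1 hb).2
      · exact Algebra.subset_adjoin ⟨j, _, rfl⟩

/-- Power sums of the blocks generate the invariants. -/
theorem Rinv_eq_adjoin (lab : V → Λ) :
    Rinv lab = Algebra.adjoin ℂ {p | ∃ j a, p = psl lab j a} := by
  refine le_antisymm ?_ (Algebra.adjoin_le ?_)
  · rw [Artin_Rinv_eq]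
    refine Algebra.adjoin_le ?_
    rintro _ (⟨j, a, rfl⟩ | ⟨k, hk, rfl⟩)
    · exact Artin_E_mem_psl lab j a
    · exact absurd hk (not_le.2 (Artin_ordV_lt k))
  · rintro _ ⟨j, a, rfl⟩
    exact psl_mem_Rinv lab j a

open Classical in
/-- Elementary symmetric functions of the blocks generate the invariants. -/
theorem Rinv_eq_adjoin_esymm (lab : V → Λ) :
    Rinv lab = Algebra.adjoin ℂ {p | ∃ j a, p = ∑ s ∈ Finset.powersetCard a
      (Finset.univ.filter fun k => lab k = j), ∏ k ∈ s, (X k : MvPolynomial V ℂ)} := by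
  rw [Artin_Rinv_eq, Artin_A]
  congr 1
  ext p
  simp only [Set.mem_union, Set.mem_ofPred_eq, Artin_B_top, Artin_E]
  exact or_iff_left fun ⟨k, hk, _⟩ => absurd hk (not_le.2 (Artin_ordV_lt k))

end Pool.Agent.HK
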