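import Pool.Agent.P.MP_1206ce_ag.Alg.SymDefs

/-! Block symmetric groups acting on polynomial rings: Artin basis, Frobenius property. -/

noncomputable section

open MvPolynomial

namespace Pool.Agent.HK

variable {V Λ Λ₀ : Type} [Fintype V] [DecidableEq V]

theorem mem_Wl {lab : V → Λ} {w : Equiv.Perm V} : w ∈ Wl lab ↔ ∀ k, lab (w k) = lab k := by
  simp [Wl]
theorem one_mem_Wl (lab : V → Λ) : (1 : Equiv.Perm V) ∈ Wl lab :=
  mem_Wl.2 fun _ => rfl
theorem mul_mem_Wl {lab : V → Λ} {w w' : Equiv.Perm V} (h : w ∈ Wl lab) (h' : w' ∈ Wl lab) :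
    w * w' ∈ Wl lab :=
  mem_Wl.2 fun k => by rw [Equiv.Perm.mul_apply, mem_Wl.1 h, mem_Wl.1 h']
theorem inv_mem_Wl {lab : V → Λ} {w : Equiv.Perm V} (h : w ∈ Wl lab) : w⁻¹ ∈ Wl lab :=
  mem_Wl.2 fun k => by
    have := mem_Wl.1 h (w⁻¹ k)
    rw [← this]
    simp
theorem card_Wl_ne_zero (lab : V → Λ) : ((Wl lab).card : ℂ) ≠ 0 :=
  Nat.cast_ne_zero.2 (Finset.card_ne_zero.2 ⟨1, one_mem_Wl lab⟩)
theorem Wl_mono {lab : V → Λ} {lab₀ : V → Λ₀} (h : Refines lab lab₀) : Wl lab ⊆ Wl lab₀ :=
  fun _ hw => mem_Wl.2 fun k => h _ _ (mem_Wl.1 hw k)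
theorem Wl_congr {lab : V → Λ} {lab₀ : V → Λ₀} (h : Refines lab lab₀) (h' : Refines lab₀ lab) :
    Wl lab = Wl lab₀ := Finset.Subset.antisymm (Wl_mono h) (Wl_mono h')
theorem Wl_id : Wl (id : V → V) = {1} := by
  ext w
  rw [mem_Wl, Finset.mem_singleton]
  constructor
  · intro h
    exact Equiv.ext h
  · rintro rfl k
    rfl
theorem mem_Rinv {lab : V → Λ} {p : MvPolynomial V ℂ} :
    p ∈ Rinv lab ↔ ∀ w ∈ Wl lab, rename w p = p := Iff.rfl
theorem Rinv_anti {lab : V → Λ} {lab₀ : V → Λ₀} (h : Refines lab lab₀) : Rinv lab₀ ≤ Rinv lab :=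
  fun _ hp => mem_Rinv.2 fun w hw => mem_Rinv.1 hp w (Wl_mono h hw)
theorem mem_Rinv_id (p : MvPolynomial V ℂ) : p ∈ Rinv (id : V → V) := by
  refine mem_Rinv.2 fun w hw => ?_
  rw [Wl_id, Finset.mem_singleton] at hw
  subst hw
  simp
theorem homogeneousComponent_mem_Rinv {lab : V → Λ} {p : MvPolynomial V ℂ} (h : p ∈ Rinv lab)
    (d : ℕ) : homogeneousComponent d p ∈ Rinv lab :=
  mem_Rinv.2 fun w hw => by rw [rename_homogeneousComponent, mem_Rinv.1 h w hw]
theorem X_mem_Rinv {lab : V → Λ} {k : V} (h : ∀ l, lab l = lab k → l = k) :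
    (X k : MvPolynomial V ℂ) ∈ Rinv lab :=
  mem_Rinv.2 fun w hw => by rw [rename_X, h _ (mem_Wl.1 hw k)]
theorem psl_mem_Rinv (lab : V → Λ) (j : Λ) (a : ℕ) : psl lab j a ∈ Rinv lab := by
  refine mem_Rinv.2 fun w hw => ?_
  unfold psl
  rw [map_sum]
  simp only [map_pow, rename_X]
  refine Finset.sum_equiv w (fun k => ?_) (fun _ _ => rfl)
  simp only [Finset.mem_filter, Finset.mem_univ, true_and, mem_Wl.1 hw k]
/-- Renaming along an injection onto a union of blocks. -/
theorem rename_mem_Rinv {V' Λ' : Type} [Fintype V'] [DecidableEq V'] {lab : V → Λ}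
    {lab' : V' → Λ'} {ι : V' → V} (hι : Function.Injective ι)
    (hl : ∀ k l, lab (ι k) = lab (ι l) → lab' k = lab' l)
    (hs : ∀ k x, lab x = lab (ι k) → x ∈ Set.range ι) {p : MvPolynomial V' ℂ}
    (hp : p ∈ Rinv lab') : rename ι p ∈ Rinv lab := by
  refine mem_Rinv.2 fun w hw => ?_
  have hw' := mem_Wl.1 hw
  choose f hf using fun k => hs k (w (ι k)) (hw' (ι k))
  have hinj : Function.Injective f := by
    intro a b hab
    have : w (ι a) = w (ι b) := by rw [← hf a, ← hf b, hab]
    exact hι (w.injective this)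
  let e : Equiv.Perm V' := Equiv.ofBijective f (Finite.injective_iff_bijective.1 hinj)
  have he : e ∈ Wl lab' := mem_Wl.2 fun k => hl _ _ (by
    change lab (ι (f k)) = lab (ι k)
    rw [hf, hw'])
  have hc : (w : V → V) ∘ ι = ι ∘ (e : V' → V') := funext fun k => (hf k).symm
  rw [rename_rename, hc, ← rename_rename, mem_Rinv.1 hp e he]
theorem sgn_mul (w w' : Equiv.Perm V) : sgn (w * w') = sgn w * sgn w' := by
  simp [sgn]
theorem sgn_one : sgn (1 : Equiv.Perm V) = 1 := by
  simp [sgn]
theorem sgn_mul_self (w : Equiv.Perm V) : sgn w * sgn w = 1 := by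
  unfold sgn
  rcases Int.units_eq_one_or (Equiv.Perm.sign w) with h | h <;> simp [h]
theorem sgn_inv (w : Equiv.Perm V) : sgn w⁻¹ = sgn w := by
  simp [sgn]

theorem Alt_apply (lab : V → Λ) (p : MvPolynomial V ℂ) :
    Alt lab p = ∑ w ∈ Wl lab, sgn w • rename w p := by
  simp [Alt, LinearMap.sum_apply]
theorem Sym_apply (lab : V → Λ) (p : MvPolynomial V ℂ) :
    Sym lab p = ∑ w ∈ Wl lab, rename w p := by
  simp [Sym, LinearMap.sum_apply]

theorem Sym_rename_mul (w w' : Equiv.Perm V) (p : MvPolynomial V ℂ) :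
    rename w (rename w' p) = rename (w * w' : Equiv.Perm V) p := by
  rw [rename_rename, Equiv.Perm.coe_mul]

/-- Reindexing a sum over `Wl lab` by left multiplication. -/
theorem Sym_sum_left {M : Type} [AddCommMonoid M] {lab : V → Λ} {w : Equiv.Perm V}
    (h : w ∈ Wl lab) (f : Equiv.Perm V → M) :
    ∑ u ∈ Wl lab, f (w * u) = ∑ u ∈ Wl lab, f u := by
  refine Finset.sum_equiv (Equiv.mulLeft w) (fun u => ?_) (fun _ _ => rfl)
  refine ⟨fun hu => mul_mem_Wl h hu, fun hu => ?_⟩
  have := mul_mem_Wl (inv_mem_Wl h) hu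
  simpa using this

/-- Reindexing a sum over `Wl lab` by right multiplication. -/
theorem Sym_sum_right {M : Type} [AddCommMonoid M] {lab : V → Λ} {w : Equiv.Perm V}
    (h : w ∈ Wl lab) (f : Equiv.Perm V → M) :
    ∑ u ∈ Wl lab, f (u * w) = ∑ u ∈ Wl lab, f u := by
  refine Finset.sum_equiv (Equiv.mulRight w) (fun u => ?_) (fun _ _ => rfl)
  refine ⟨fun hu => mul_mem_Wl hu h, fun hu => ?_⟩
  have := mul_mem_Wl hu (inv_mem_Wl h)
  simpa using this

theorem rename_Alt {lab : V → Λ} {w : Equiv.Perm V} (h : w ∈ Wl lab) (p : MvPolynomial V ℂ) :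
    rename w (Alt lab p) = sgn w • Alt lab p := by
  rw [Alt_apply, map_sum, Finset.smul_sum,
    ← Sym_sum_left h (fun u => sgn w • sgn u • rename u p)]
  refine Finset.sum_congr rfl fun u _ => ?_
  rw [map_smul, Sym_rename_mul, sgn_mul, smul_smul, ← mul_assoc, sgn_mul_self, one_mul]
theorem Alt_rename {lab : V → Λ} {w : Equiv.Perm V} (h : w ∈ Wl lab) (p : MvPolynomial V ℂ) :
    Alt lab (rename w p) = sgn w • Alt lab p := by
  rw [Alt_apply, Alt_apply, Finset.smul_sum,
    ← Sym_sum_right h (fun u => sgn w • sgn u • rename u p)]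
  refine Finset.sum_congr rfl fun u _ => ?_
  rw [Sym_rename_mul, sgn_mul, smul_smul, mul_comm (sgn u), ← mul_assoc, sgn_mul_self, one_mul]
theorem Sym_rename {lab : V → Λ} {w : Equiv.Perm V} (h : w ∈ Wl lab) (p : MvPolynomial V ℂ) :
    Sym lab (rename w p) = Sym lab p := by
  rw [Sym_apply, Sym_apply, ← Sym_sum_right h (fun u => rename u p)]
  exact Finset.sum_congr rfl fun u _ => Sym_rename_mul u w p
theorem Sym_mem_Rinv (lab : V → Λ) (p : MvPolynomial V ℂ) : Sym lab p ∈ Rinv lab := by
  refine mem_Rinv.2 fun w hw => ?_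
  rw [Sym_apply, map_sum, ← Sym_sum_left hw (fun u => rename u p)]
  exact Finset.sum_congr rfl fun u _ => Sym_rename_mul w u p
theorem Alt_mul {lab : V → Λ} {h : MvPolynomial V ℂ} (hh : h ∈ Rinv lab) (p : MvPolynomial V ℂ) :
    Alt lab (h * p) = h * Alt lab p := by
  rw [Alt_apply, Alt_apply, Finset.mul_sum]
  refine Finset.sum_congr rfl fun u hu => ?_
  rw [map_mul, mem_Rinv.1 hh u hu, mul_smul_comm]
theorem Sym_mul {lab : V → Λ} {h : MvPolynomial V ℂ} (hh : h ∈ Rinv lab) (p : MvPolynomial V ℂ) :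
    Sym lab (h * p) = h * Sym lab p := by
  rw [Sym_apply, Sym_apply, Finset.mul_sum]
  refine Finset.sum_congr rfl fun u hu => ?_
  rw [map_mul, mem_Rinv.1 hh u hu]
theorem Sym_of_mem {lab : V → Λ} {h : MvPolynomial V ℂ} (hh : h ∈ Rinv lab) :
    Sym lab h = ((Wl lab).card : ℂ) • h := by
  rw [Sym_apply, Finset.sum_congr rfl (fun u hu => mem_Rinv.1 hh u hu), Finset.sum_const,
    Nat.cast_smul_eq_nsmul]
theorem Alt_of_anti {lab : V → Λ} {y : MvPolynomial V ℂ}
    (hy : ∀ w ∈ Wl lab, rename w y = sgn w • y) : Alt lab y = ((Wl lab).card : ℂ) • y := by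
  have : ∀ u ∈ Wl lab, sgn u • rename u y = y := fun u hu => by
    rw [hy u hu, smul_smul, sgn_mul_self, one_smul]
  rw [Alt_apply, Finset.sum_congr rfl this, Finset.sum_const, Nat.cast_smul_eq_nsmul]
theorem Alt_Alt {lab : V → Λ} {lab₀ : V → Λ₀} (h : Refines lab lab₀) (p : MvPolynomial V ℂ) :
    Alt lab₀ (Alt lab p) = ((Wl lab).card : ℂ) • Alt lab₀ p := by
  have : ∀ u ∈ Wl lab, Alt lab₀ (sgn u • rename u p) = Alt lab₀ p := fun u hu => by
    rw [map_smul, Alt_rename (Wl_mono h hu), smul_smul, sgn_mul_self, one_smul]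
  rw [Alt_apply lab, map_sum, Finset.sum_congr rfl this, Finset.sum_const,
    Nat.cast_smul_eq_nsmul]
theorem Alt_isHomogeneous (lab : V → Λ) {p : MvPolynomial V ℂ} {d : ℕ} (h : p.IsHomogeneous d) :
    (Alt lab p).IsHomogeneous d := by
  rw [Alt_apply]
  refine IsHomogeneous.sum _ _ _ fun u _ => ?_
  rw [smul_eq_C_mul]
  exact h.rename_isHomogeneous.C_mul _
theorem Sym_isHomogeneous (lab : V → Λ) {p : MvPolynomial V ℂ} {d : ℕ} (h : p.IsHomogeneous d) :
    (Sym lab p).IsHomogeneous d := by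
  rw [Sym_apply]
  exact IsHomogeneous.sum _ _ _ fun u _ => h.rename_isHomogeneous
theorem homogeneousComponent_Alt (lab : V → Λ) (d : ℕ) (p : MvPolynomial V ℂ) :
    homogeneousComponent d (Alt lab p) = Alt lab (homogeneousComponent d p) := by
  rw [Alt_apply, Alt_apply, map_sum]
  refine Finset.sum_congr rfl fun u _ => ?_
  rw [map_smul, rename_homogeneousComponent]

theorem ordV_injective : Function.Injective (ordV : V → ℕ) :=
  fun _ _ h => (Fintype.equivFin V).injective (Fin.ext h)

/-- A product over ordered pairs, transported to `Fin`. -/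
theorem Sym_prod_pairs {R : Type} [CommRing R] (F : V → V → R) :
    ∏ p ∈ Finset.univ.filter (fun p : V × V => ordV p.1 < ordV p.2), F p.1 p.2
      = ∏ i : Fin (Fintype.card V), ∏ j ∈ Finset.Ioi i,
          F ((Fintype.equivFin V).symm i) ((Fintype.equivFin V).symm j) := by
  rw [Finset.prod_sigma']
  refine Finset.prod_bij'
    (fun p _ => (⟨Fintype.equivFin V p.1, Fintype.equivFin V p.2⟩ :
      Σ _ : Fin (Fintype.card V), Fin (Fintype.card V)))
    (fun q _ => ((Fintype.equivFin V).symm q.1, (Fintype.equivFin V).symm q.2)) ?_ ?_ ?_ ?_ ?_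
  · intro p hp
    simp only [Finset.mem_filter, Finset.mem_univ, true_and, ordV] at hp
    simp only [Finset.mem_sigma, Finset.mem_univ, true_and, Finset.mem_Ioi]
    exact hp
  · intro q hq
    simp only [Finset.mem_sigma, Finset.mem_univ, true_and, Finset.mem_Ioi] at hq
    simp only [Finset.mem_filter, Finset.mem_univ, true_and, ordV, Equiv.apply_symm_apply]
    exact hq
  · intro p _
    simp
  · intro q _
    simp
  · intro p _
    simp

/-- An antisymmetric function: the product over ordered pairs changes by the sign. -/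
theorem Sym_prod_sign {R : Type} [CommRing R] (F : V → V → R) (hF : ∀ a b, F a b = -F b a)
    (w : Equiv.Perm V) :
    ∏ p ∈ Finset.univ.filter (fun p : V × V => ordV p.1 < ordV p.2), F (w p.1) (w p.2)
      = ((Equiv.Perm.sign w : ℤ) : R)
        * ∏ p ∈ Finset.univ.filter (fun p : V × V => ordV p.1 < ordV p.2), F p.1 p.2 := by
  rw [Sym_prod_pairs (fun a b => F (w a) (w b)), Sym_prod_pairs F]
  have := ((Fintype.equivFin V).permCongr w).prod_Ioi_comp_eq_sign_mul_prod
    (f := fun i j => F ((Fintype.equivFin V).symm i) ((Fintype.equivFin V).symm j))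
    (fun i j => hF _ _)
  rw [Equiv.Perm.sign_permCongr] at this
  simpa using this

/-- A number that separates the blocks. -/
theorem Sym_exists_rank (lab : V → Λ) : ∃ r : V → ℕ, ∀ a b, r a = r b ↔ lab a = lab b := by
  have hs : ∀ a : V, lab (Function.surjInv (Set.rangeFactorization_surjective (f := lab))
      (Set.rangeFactorization lab a)) = lab a := fun a =>
    congrArg Subtype.val (Function.surjInv_eq (Set.rangeFactorization_surjective (f := lab))
      (Set.rangeFactorization lab a))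
  refine ⟨fun a => ordV (Function.surjInv (Set.rangeFactorization_surjective (f := lab))
    (Set.rangeFactorization lab a)), fun a b => ⟨fun h => ?_, fun h => ?_⟩⟩
  · rw [← hs a, ordV_injective h, hs b]
  · have : Set.rangeFactorization lab a = Set.rangeFactorization lab b := Subtype.ext h
    simp only [this]

theorem rename_Dl {lab : V → Λ} {w : Equiv.Perm V} (h : w ∈ Wl lab) :
    rename w (Dl lab) = sgn w • Dl lab := by
  classical
  obtain ⟨r, hr⟩ := Sym_exists_rank lab
  have hw := mem_Wl.1 h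
  have hrw : ∀ a, r (w a) = r a := fun a => (hr _ _).2 (hw a)
  let g : V → V → MvPolynomial V ℂ := fun a b => if r a < r b then 1 else -1
  let F : V → V → MvPolynomial V ℂ := fun a b => if lab a = lab b then X a - X b else g a b
  have hF : ∀ a b, F a b = -F b a := by
    intro a b
    by_cases hab : lab a = lab b
    · simp only [F, if_pos hab, if_pos hab.symm, neg_sub]
    · have hne : r a ≠ r b := fun e => hab ((hr a b).1 e)
      simp only [F, g, if_neg hab, if_neg (Ne.symm hab)]
      rcases lt_or_gt_of_ne hne with hlt | hlt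
      · rw [if_pos hlt, if_neg (not_lt.2 hlt.le), neg_neg]
      · rw [if_pos hlt, if_neg (not_lt.2 hlt.le)]
  have key := Sym_prod_sign F hF w
  let G : MvPolynomial V ℂ := ∏ p ∈ (Finset.univ.filter
    (fun p : V × V => ordV p.1 < ordV p.2)).filter (fun p => ¬ lab p.1 = lab p.2), g p.1 p.2
  have hG : G ≠ 0 := by
    refine Finset.prod_ne_zero_iff.2 fun p _ => ?_
    simp only [g]
    split_ifs <;> simp
  have hfil : (Finset.univ.filter (fun p : V × V => ordV p.1 < ordV p.2)).filter
      (fun p => lab p.1 = lab p.2)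
      = Finset.univ.filter (fun p : V × V => lab p.1 = lab p.2 ∧ ordV p.1 < ordV p.2) := by
    ext p
    simp [and_comm]
  have h1 : ∏ p ∈ Finset.univ.filter (fun p : V × V => ordV p.1 < ordV p.2), F p.1 p.2
      = Dl lab * G := by
    simp only [F]
    rw [Finset.prod_ite, hfil]
    unfold Dl
    congr!
  have h2 : ∏ p ∈ Finset.univ.filter (fun p : V × V => ordV p.1 < ordV p.2), F (w p.1) (w p.2)
      = rename w (Dl lab) * G := by
    simp only [F, g, hw, hrw]
    rw [Finset.prod_ite, hfil]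
    unfold Dl
    rw [map_prod]
    simp only [map_sub, rename_X]
    congr!
  rw [h1, h2, ← mul_assoc] at key
  rw [mul_right_cancel₀ hG key, smul_eq_C_mul]
  simp [sgn]
theorem Dl_ne_zero (lab : V → Λ) : Dl lab ≠ 0 := by
  unfold Dl
  refine Finset.prod_ne_zero_iff.2 fun p hp => ?_
  simp only [Finset.mem_filter, Finset.mem_univ, true_and] at hp
  refine sub_ne_zero.2 fun e => ?_
  have := X_injective e
  rw [this] at hp
  exact lt_irrefl _ hp.2

open Classical in
theorem Sym_card_lt (lab : V → Λ) :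
    (Finset.univ.filter (fun p : V × V => lab p.1 = lab p.2 ∧ ordV p.1 < ordV p.2)).card
      = npos lab := by
  unfold npos posl
  rw [Finset.card_eq_sum_card_fiberwise (f := Prod.snd) (t := Finset.univ)
    (fun _ _ => Finset.mem_coe.2 (Finset.mem_univ _))]
  refine Finset.sum_congr rfl fun k _ => ?_
  refine Finset.card_bij' (fun p _ => p.1) (fun l _ => (l, k)) ?_ ?_ ?_ ?_
  · intro p hp
    simp only [Finset.mem_filter, Finset.mem_univ, true_and] at hp ⊢
    rw [← hp.2]
    exact hp.1
  · intro l hl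
    simp only [Finset.mem_filter, Finset.mem_univ, true_and] at hl ⊢
    exact ⟨hl, trivial⟩
  · intro p hp
    simp only [Finset.mem_filter, Finset.mem_univ, true_and] at hp
    rw [← hp.2]
  · intro l _
    rfl

theorem Dl_isHomogeneous (lab : V → Λ) : (Dl lab).IsHomogeneous (npos lab) := by
  rw [← Sym_card_lt, Finset.card_eq_sum_ones]
  unfold Dl
  exact IsHomogeneous.prod _ _ (fun _ => 1) fun p _ =>
    (isHomogeneous_X ℂ p.1).sub (isHomogeneous_X ℂ p.2)
theorem Dl_congr {lab : V → Λ} {lab₀ : V → Λ₀} (h : Refines lab lab₀) (h' : Refines lab₀ lab) :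
    Dl lab = Dl lab₀ := by
  unfold Dl
  refine Finset.prod_congr ?_ fun _ _ => rfl
  ext p
  simp only [Finset.mem_filter, Finset.mem_univ, true_and]
  exact and_congr_left fun _ => ⟨h _ _, h' _ _⟩
theorem Alt_Dl_mul (lab : V → Λ) (p : MvPolynomial V ℂ) :
    Alt lab (Dl lab * p) = Dl lab * Sym lab p := by
  rw [Alt_apply, Sym_apply, Finset.mul_sum]
  refine Finset.sum_congr rfl fun u hu => ?_
  rw [map_mul, rename_Dl hu, smul_mul_assoc, smul_smul, sgn_mul_self, one_smul]
theorem xI_isHomogeneous (lab : V → Λ) (I : ArtI lab) : (xI lab I).IsHomogeneous (degI lab I) :=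
  IsHomogeneous.prod _ _ (fun k => (I k : ℕ)) fun k _ => isHomogeneous_X_pow k _
theorem degI_topI (lab : V → Λ) : degI lab (topI lab) = npos lab := by
  simp [degI, topI, npos]
theorem degI_lt {lab : V → Λ} {I : ArtI lab} (h : I ≠ topI lab) : degI lab I < npos lab := by
  unfold degI npos
  refine Finset.sum_lt_sum (fun k _ => Nat.lt_succ_iff.1 (I k).2) ?_
  obtain ⟨k, hk⟩ := Function.ne_iff.1 h
  exact ⟨k, Finset.mem_univ _, Fin.val_lt_last hk⟩
theorem linF_isHomogeneous (χ : V → ℤ) : (linF χ).IsHomogeneous 1 :=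
  IsHomogeneous.sum _ _ _ fun k _ => isHomogeneous_C_mul_X _ k
theorem linF_add (χ χ' : V → ℤ) : linF (χ + χ') = linF χ + linF χ' := by
  simp [linF, add_mul, Finset.sum_add_distrib]
theorem linF_neg (χ : V → ℤ) : linF (-χ) = -linF χ := by
  simp [linF]
theorem linF_single (k : V) : linF (Pi.single k 1) = X k := by
  unfold linF
  rw [Finset.sum_eq_single k]
  · simp
  · intro l _ hl
    simp [Pi.single_eq_of_ne hl]
  · simp
theorem linF_eq_zero {χ : V → ℤ} : linF χ = 0 ↔ χ = 0 := by
  constructor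
  · intro h
    funext k
    have h1 := congrArg (eval (Pi.single k (1 : ℂ))) h
    unfold linF at h1
    rw [map_sum, Finset.sum_eq_single k] at h1
    · simpa using h1
    · intro l _ hl
      simp [Pi.single_eq_of_ne hl]
    · simp
  · rintro rfl
    simp [linF]
open Classical in
theorem card_pairs (lab : V → Λ) :
    (Finset.univ.filter fun p : V × V => lab p.1 = lab p.2).card = Fintype.card V + 2 * npos lab := by
  have hlt := Sym_card_lt lab
  have hgt : (Finset.univ.filter
      (fun p : V × V => lab p.1 = lab p.2 ∧ ordV p.2 < ordV p.1)).card = npos lab := by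
    rw [← hlt]
    refine Finset.card_equiv (Equiv.prodComm V V) fun p => ?_
    simp only [Finset.mem_filter, Finset.mem_univ, true_and, Equiv.prodComm_apply, Prod.fst_swap,
      Prod.snd_swap]
    exact and_congr_left fun _ => eq_comm
  have heq : (Finset.univ.filter (fun p : V × V => p.1 = p.2)).card = Fintype.card V := by
    rw [← Finset.card_univ (α := V)]
    refine Finset.card_bij' (fun p _ => p.1) (fun l _ => (l, l)) ?_ ?_ ?_ ?_
    · intro p _
      exact Finset.mem_univ _
    · intro l _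
      simp
    · intro p hp
      simp only [Finset.mem_filter, Finset.mem_univ, true_and] at hp
      exact Prod.ext rfl hp
    · intro l _
      rfl
  rw [two_mul, ← heq]
  nth_rewrite 1 [← hlt]
  rw [← hgt]
  simp only [Finset.card_filter, ← Finset.sum_add_distrib]
  refine Finset.sum_congr rfl fun p _ => ?_
  rcases lt_trichotomy (ordV p.1) (ordV p.2) with h | h | h
  · have hne : p.1 ≠ p.2 := fun e => by rw [e] at h; exact lt_irrefl _ h
    simp [h, hne, not_lt.2 h.le]
  · have e := ordV_injective h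
    simp [e]
  · have hne : p.1 ≠ p.2 := fun e => by rw [e] at h; exact lt_irrefl _ h
    simp [h, hne, not_lt.2 h.le]

end Pool.Agent.HK
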