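import Mathlib

/-! Block symmetric groups acting on polynomial rings: definitions. -/

noncomputable section

open MvPolynomial

namespace Pool.Agent.HK

variable {V Λ : Type} [Fintype V] [DecidableEq V]

open Classical in
/-- Label preserving permutations. -/
def Wl (lab : V → Λ) : Finset (Equiv.Perm V) := Finset.univ.filter fun w => ∀ k, lab (w k) = lab k

/-- Invariant polynomials. -/
def Rinv (lab : V → Λ) : Subalgebra ℂ (MvPolynomial V ℂ) where
  carrier := {p | ∀ w ∈ Wl lab, rename w p = p}
  mul_mem' := fun ha hb w hw => by rw [map_mul, ha w hw, hb w hw]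
  add_mem' := fun ha hb w hw => by rw [map_add, ha w hw, hb w hw]
  algebraMap_mem' := fun r w _ => (rename w).commutes r

/-- The sign of a permutation as a complex number. -/
def sgn (w : Equiv.Perm V) : ℂ := ((Equiv.Perm.sign w : ℤ) : ℂ)

/-- Antisymmetrisation. -/
def Alt (lab : V → Λ) : MvPolynomial V ℂ →ₗ[ℂ] MvPolynomial V ℂ :=
  ∑ w ∈ Wl lab, sgn w • (rename w : MvPolynomial V ℂ →ₐ[ℂ] MvPolynomial V ℂ).toLinearMap

/-- Symmetrisation. -/
def Sym (lab : V → Λ) : MvPolynomial V ℂ →ₗ[ℂ] MvPolynomial V ℂ :=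
  ∑ w ∈ Wl lab, (rename w : MvPolynomial V ℂ →ₐ[ℂ] MvPolynomial V ℂ).toLinearMap

/-- A fixed linear order on the variables. -/
def ordV (k : V) : ℕ := (Fintype.equivFin V k : ℕ)

open Classical in
/-- Product of the Vandermonde determinants of the blocks. -/
def Dl (lab : V → Λ) : MvPolynomial V ℂ :=
  ∏ p ∈ Finset.univ.filter (fun p : V × V => lab p.1 = lab p.2 ∧ ordV p.1 < ordV p.2),
    (X p.1 - X p.2)

open Classical in
/-- Position of a variable in its block. -/
def posl (lab : V → Λ) (k : V) : ℕ :=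
  (Finset.univ.filter fun l => lab l = lab k ∧ ordV l < ordV k).card

/-- Exponents of the Artin monomials. -/
abbrev ArtI (lab : V → Λ) : Type := (k : V) → Fin (posl lab k + 1)

/-- Artin monomials. -/
def xI (lab : V → Λ) (I : ArtI lab) : MvPolynomial V ℂ := ∏ k, X k ^ (I k : ℕ)

/-- The top Artin exponent. -/
def topI (lab : V → Λ) : ArtI lab := fun _ => Fin.last _

/-- Degree of an Artin monomial. -/
def degI (lab : V → Λ) (I : ArtI lab) : ℕ := ∑ k, (I k : ℕ)

/-- Number of positive roots. -/
def npos (lab : V → Λ) : ℕ := ∑ k, posl lab k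

/-- `lab` is finer than `lab₀`. -/
def Refines {Λ₀ : Type} (lab : V → Λ) (lab₀ : V → Λ₀) : Prop :=
  ∀ k l, lab k = lab l → lab₀ k = lab₀ l

/-- The linear form of a character of the diagonal torus. -/
def linF (χ : V → ℤ) : MvPolynomial V ℂ := ∑ k, C (χ k : ℂ) * X k

open Classical in
/-- Power sums of a block. -/
def psl (lab : V → Λ) (j : Λ) (a : ℕ) : MvPolynomial V ℂ :=
  ∑ k ∈ Finset.univ.filter (fun k => lab k = j), X k ^ a

end Pool.Agent.HK
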