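import Pool.Agent.P.MP_1206ce_ag.Defs
import Pool.Agent.P.MP_1206ce_ag.Alg.SymDefs

/-! The abelianised Coulomb branch algebra and the ideal `I'`: definitions. -/

noncomputable section

open MvPolynomial

namespace Pool.Agent.HK

namespace Qv

variable (Q : Qv)

/-- `H_T(pt)`. -/
abbrev Pol : Type := MvPolynomial Q.Var ℂ
/-- Its fraction field. -/
abbrev Frac : Type := FractionRing Q.Pol
/-- Cocharacters of the gauge torus. -/
abbrev Lam : Type := Fin Q.nB → ℤ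
/-- The ambient group algebra. -/
abbrev AA : Type := AddMonoidAlgebra Q.Frac Q.Lam
/-- Matrix positions `(arrow, row, column)`. -/
abbrev Ps : Type := Fin Q.nA × Option (Fin Q.nB) × Option (Fin Q.nB)

/-- The variable of a basis vector; the framing vector has variable `0`. -/
def xv (k : Option (Fin Q.nB)) : Q.Pol := k.elim 0 fun i => X (Sum.inl i)
/-- The cocharacter extended by zero to the framing vector. -/
def lv (l : Q.Lam) (k : Option (Fin Q.nB)) : ℤ := k.elim 0 l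
/-- The flavour weight of an arrow. -/
def bw (h : Fin Q.nA) : Q.Pol := ∑ a, C (Q.wt h a : ℂ) * X (Sum.inr a)
/-- The positions of the coordinates of `N`. -/
def WI : Finset Q.Ps :=
  Finset.univ.filter fun p => Q.vb p.2.1 = Q.tgt p.1 ∧ Q.vb p.2.2 = Q.src p.1
/-- The weight of a coordinate. -/
def wtP (p : Q.Ps) : Q.Pol := Q.xv p.2.1 - Q.xv p.2.2 + Q.bw p.1
/-- Its pairing with a cocharacter. -/
def prP (l : Q.Lam) (p : Q.Ps) : ℤ := Q.lv l p.2.1 - Q.lv l p.2.2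
/-- `φ_λ`. -/
def phi (l : Q.Lam) : Q.Pol := ∏ p ∈ Q.WI, Q.wtP p ^ (-Q.prP l p).toNat
/-- `e_λ`. -/
def eul (l : Q.Lam) : Q.Pol :=
  ∏ p ∈ Finset.univ.filter (fun p : Fin Q.nB × Fin Q.nB => Q.vt p.1 = Q.vt p.2),
    (X (Sum.inl p.1) - X (Sum.inl p.2)) ^ (l p.1 - l p.2).toNat
/-- The Weyl group acts on cocharacters. -/
def wl (w : Equiv.Perm Q.Var) (l : Q.Lam) : Q.Lam := fun k => Sum.elim l 0 (w.symm (Sum.inl k))
/-- The Weyl group acts on fractions. -/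
def wF (w : Equiv.Perm Q.Var) : Q.Frac ≃+* Q.Frac :=
  IsFractionRing.ringEquivOfRingEquiv (renameEquiv ℂ w).toRingEquiv
/-- The squared norm. -/
def nsq (l : Q.Lam) : ℤ := ∑ k, l k ^ 2
/-- Polynomials as elements of the group algebra. -/
def iota : Q.Pol →ₐ[ℂ] Q.AA :=
  (IsScalarTower.toAlgHom ℂ Q.Frac Q.AA).comp (IsScalarTower.toAlgHom ℂ Q.Pol Q.Frac)
/-- Push-forward of the class `p` at the fixed point `λ`. -/
def mono (l : Q.Lam) (p : Q.Pol) : Q.AA :=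
  ∑ w ∈ Wl Q.lab, AddMonoidAlgebra.single (Q.wl w l)
    (algebraMap Q.Pol Q.Frac (sgn w • rename w (p * Q.phi l)) / algebraMap Q.Pol Q.Frac (Dl Q.lab))
/-- Weyl invariance and the shape of the leading coefficients. -/
def TRp (z : Q.AA) : Prop :=
  (∀ w ∈ Wl Q.lab, ∀ l, z.coeff (Q.wl w l) = Q.wF w (z.coeff l)) ∧
    ∀ l, (∀ m, z.coeff m ≠ 0 → Q.nsq m ≤ Q.nsq l) →
      ∃ g : Q.Pol, z.coeff l * algebraMap Q.Pol Q.Frac (Q.eul l) =
        algebraMap Q.Pol Q.Frac (Q.phi l * g)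
/-- The properties that characterise the Coulomb branch algebra. -/
def IsCoul (S : Subalgebra ℂ Q.AA) : Prop := (∀ l p, Q.mono l p ∈ S) ∧ ∀ z ∈ S, Q.TRp z
/-- Supported in weight `k`. -/
def WtA (θ : Fin Q.nI → ℤ) (k : ℤ) (z : Q.AA) : Prop :=
  ∀ l, z.coeff l ≠ 0 → ∑ i, θ (Q.vt i) * l i = k
/-- The ideal generated by the elements of nonzero weight. -/
def IA (θ : Fin Q.nI → ℤ) (S : Subalgebra ℂ Q.AA) : Ideal S :=
  Ideal.span {z | ∃ k, k ≠ 0 ∧ Q.WtA θ k z.1}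
/-- Homogeneous fractions of cohomological degree `j`. -/
def FDeg (j : ℤ) (c : Q.Frac) : Prop :=
  c = 0 ∨ ∃ (a b : Q.Pol) (da db : ℕ), a.IsHomogeneous da ∧ b.IsHomogeneous db ∧ b ≠ 0 ∧
    c * algebraMap Q.Pol Q.Frac b = algebraMap Q.Pol Q.Frac a ∧ 2 * ((da : ℤ) - db) = j

/-- The datum with one more flavour direction that scales every arrow. -/
abbrev bdef : Qv where
  nI := Q.nI
  nB := Q.nB
  nT := Q.nT + 1
  nA := Q.nA
  vt := Q.vt
  src := Q.src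
  tgt := Q.tgt
  wt := fun h => Fin.cons 1 (Q.wt h)

/-- The labelling refined by a level function. -/
def labr (ρ : Option (Fin Q.nB) → ℕ) : Q.Var → (Fin Q.nI ⊕ Fin Q.nT) × ℕ :=
  fun x => (Q.lab x, Sum.elim (fun k => ρ (some k)) 0 x)
/-- Product of the weights between different levels. -/
def Arho (ρ : Option (Fin Q.nB) → ℕ) : Q.Pol :=
  ∏ p ∈ Q.WI.filter (fun p => ρ p.2.1 ≠ ρ p.2.2), Q.wtP p
/-- The ideal of decomposable classes. -/
def Kdec : Ideal Q.Pol :=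
  Ideal.span {y | ∃ ρ : Option (Fin Q.nB) → ℕ, (∃ k l, ρ k ≠ ρ l) ∧ y = Dl (Q.labr ρ) * Q.Arho ρ}
/-- `I₀`. -/
def I0 : Set Q.Pol := {h | h ∈ Rinv Q.lab ∧ h * Dl Q.lab ^ 2 ∈ Q.Kdec}
/-- Specialisation of the extra flavour variable to zero. -/
def spec : Q.bdef.Pol →ₐ[ℂ] Q.Pol :=
  aeval (Sum.elim (fun k => X (Sum.inl k))
    (Fin.cons 0 (fun a => X (Sum.inr a)) : Fin (Q.nT + 1) → Q.Pol))
/-- `I'`. -/
def Ipr : Set Q.Pol := {h | ∃ h' ∈ Q.bdef.I0, Q.spec h' = h}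

end Qv

end Pool.Agent.HK
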